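import Pool.Agent.W117.GS.Stm

set_option autoImplicit false

open Set Metric
open scoped ContDiff

namespace Pool.Agent.W138.GS

open Pool.Agent.W117.GS

theorem main : Pool.Agent.W117.GS.PropKE := by
  intro F R m M hF
  have hc : Continuous (fderiv ℝ F) := hF.continuous_fderiv (by simp)
  have hS : IsCompact (closedBall (0 : U3) R ×ˢ Icc m M) :=
    (isCompact_closedBall 0 R).prod isCompact_Icc
  have hconv : Convex ℝ (closedBall (0 : U3) R ×ˢ Icc m M) :=
    (convex_closedBall 0 R).prod (convex_Icc m M)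
  obtain ⟨C, hC⟩ := hS.exists_bound_of_continuousOn hc.continuousOn
  refine ⟨|C| + 1, by positivity, fun u y y' hu hm hyy hM => ?_⟩
  have h1 : (u, y) ∈ closedBall (0 : U3) R ×ˢ Icc m M :=
    ⟨by simpa using hu, hm, hyy.trans hM⟩
  have h2 : (u, y') ∈ closedBall (0 : U3) R ×ˢ Icc m M :=
    ⟨by simpa using hu, hm.trans hyy, hM⟩
  have h3 := hconv.norm_image_sub_le_of_norm_fderiv_le (𝕜 := ℝ) (f := F) (C := |C|)
    (fun x _ => (hF.differentiable (by simp)).differentiableAt)
    (fun x hx => (hC x hx).trans (le_abs_self C)) h1 h2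
  have h4 : ‖((u, y') : U3 × ℝ) - (u, y)‖ = y' - y := by
    rw [Prod.mk_sub_mk, sub_self, Prod.norm_mk, norm_zero, Real.norm_eq_abs,
      abs_of_nonneg (sub_nonneg.2 hyy)]
    exact max_eq_right (sub_nonneg.2 hyy)
  rw [h4, Real.norm_eq_abs] at h3
  have h5 := (abs_le.1 h3).1
  nlinarith

end Pool.Agent.W138.GS
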